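import Pool.Agent.Helper44.GJ.Stmts
import Pool.Agent.Helper57.GH.BL

/-!
# The Brascamp-Lieb inequality for functions with compact support
-/

open Finset MeasureTheory Filter Topology Matrix
open scoped ENNReal ContDiff

namespace Pool.Agent.Helper44.GJ

open Pool.Agent.Helper44.GF Pool.Agent.Helper44.GN Pool.Agent.Helper44.GH

/-! ### The expansion -/

theorem bla_core {m : ℕ} (E F A G : (Fin m → ℝ) → ℝ) (hG : Continuous G)
    (hE : ∀ x, E x = Real.exp (-G x)) (iE : Integrable E) (hFc : Continuous F) (hAc : Continuous A)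
    (C M : ℝ) (hC : 0 ≤ C) (hM0 : 0 ≤ M) (hF1 : ∀ x, |F x| ≤ C) (hA0 : ∀ x, 0 ≤ A x)
    (hA1 : ∀ x, A x ≤ M)
    (H : ∃ e1 : ℝ, 0 < e1 ∧ ∀ e, 0 < e → e ≤ e1 → ∀ x y,
      (e * F x - G x) * (1 / 2) + (-(e * F y) - G y) * (1 / 2)
        ≤ e ^ 2 * A ((1 / 2 : ℝ) • x + (1 / 2 : ℝ) • y) / 2
          - G ((1 / 2 : ℝ) • x + (1 / 2 : ℝ) • y)) :
    (∫ x, E x) * (∫ x, F x ^ 2 * E x) - (∫ x, F x * E x) ^ 2 ≤ (∫ x, E x) * ∫ x, A x * E x := by
  have hE0 : ∀ x, 0 < E x := fun x => by rw [hE]; exact Real.exp_pos _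
  have iB : ∀ {u : (Fin m → ℝ) → ℝ}, Continuous u → ∀ {M : ℝ}, (∀ x, |u x| ≤ M) →
      Integrable (fun x => u x * E x) := fun {u} hu M hM =>
    iE.bdd_mul (c := M) hu.aestronglyMeasurable (Filter.Eventually.of_forall fun x => by
      rw [Real.norm_eq_abs]
      exact hM x)
  have iF : Integrable (fun x => F x * E x) := iB hFc hF1
  have iF2 : Integrable (fun x => F x ^ 2 * E x) := by
    refine iB (hFc.pow 2) (M := C ^ 2) fun x => ?_
    rw [abs_pow]
    exact pow_le_pow_left₀ (abs_nonneg _) (hF1 x) 2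
  have iA : Integrable (fun x => A x * E x) := by
    refine iB hAc (M := M) fun x => ?_
    rw [abs_of_nonneg (hA0 x)]
    exact hA1 x
  set I0 : ℝ := ∫ x, E x with hI0
  set I1 : ℝ := ∫ x, F x * E x with hI1
  set I2 : ℝ := ∫ x, F x ^ 2 * E x with hI2
  set IA : ℝ := ∫ x, A x * E x with hIA
  have I0n : 0 ≤ I0 := integral_nonneg fun x => (hE0 x).le
  have I2n : 0 ≤ I2 := integral_nonneg fun x => mul_nonneg (sq_nonneg _) (hE0 x).le
  have IAn : 0 ≤ IA := integral_nonneg fun x => mul_nonneg (hA0 x) (hE0 x).le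
  have I1b : |I1| ≤ C * I0 := by
    rw [hI1, hI0, ← integral_const_mul]
    refine (abs_integral_le_integral_abs).trans ?_
    refine integral_mono iF.abs (iE.const_mul C) fun x => ?_
    show |F x * E x| ≤ C * E x
    rw [abs_mul, abs_of_pos (hE0 x)]
    exact mul_le_mul_of_nonneg_right (hF1 x) (hE0 x).le
  set N : ℝ := M / 2 with hN
  have hNn : 0 ≤ N := by positivity
  set K2 : ℝ := N ^ 2 with hK2
  have hK2n : 0 ≤ K2 := by positivity
  obtain ⟨e1, he10, H⟩ := H
  set e0 : ℝ := min 1 (min (1 / (2 * (C + 1))) (min e1 (1 / (N + 1)))) with he0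
  have he00 : 0 < e0 := by
    refine lt_min one_pos (lt_min (by positivity) (lt_min he10 (by positivity)))
  refine bl_limit (a := I0 * I2 - I1 ^ 2) (b := I0 * IA)
    (K := 2 * C ^ 3 * I0 ^ 2 + 2 * K2 * I0 ^ 2 + (IA / 2 + K2 * I0) ^ 2) he00 ?_
  intro e he hee
  have he1 : e ≤ 1 := hee.trans (min_le_left _ _)
  have he2 : e ≤ 1 / (2 * (C + 1)) := hee.trans ((min_le_right _ _).trans (min_le_left _ _))
  have he3 : e ≤ e1 :=
    hee.trans ((min_le_right _ _).trans ((min_le_right _ _).trans (min_le_left _ _)))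
  have he4 : e ≤ 1 / (N + 1) :=
    hee.trans ((min_le_right _ _).trans ((min_le_right _ _).trans (min_le_right _ _)))
  have hC1 : 0 < C + 1 := by positivity
  have heC : e * C ≤ 1 / 2 := by
    calc e * C ≤ 1 / (2 * (C + 1)) * (C + 1) := by
          refine mul_le_mul he2 (by linarith) hC (by positivity)
      _ = 1 / 2 := by field_simp
  have heN : e * N ≤ 1 := by
    have hN1 : 0 < N + 1 := by positivity
    calc e * N ≤ 1 / (N + 1) * (N + 1) := by
          refine mul_le_mul he4 (by linarith) hNn (by positivity)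
      _ = 1 := by field_simp
  -- the three functions
  set p : (Fin m → ℝ) → ℝ := fun x => e * F x - G x with hp
  set q : (Fin m → ℝ) → ℝ := fun x => -(e * F x) - G x with hq
  set s : (Fin m → ℝ) → ℝ := fun x => e ^ 2 * A x / 2 - G x with hs
  have pc : Continuous p := (hFc.const_mul e).sub hG
  have qc : Continuous q := (hFc.const_mul e).neg.sub hG
  have sc : Continuous s := ((hAc.const_mul (e ^ 2)).div_const 2).sub hG
  have pe : ∀ x, Real.exp (p x) = Real.exp (e * F x) * E x := by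
    intro x
    rw [hE x, ← Real.exp_add, ← sub_eq_add_neg]
  have qe : ∀ x, Real.exp (q x) = Real.exp (-(e * F x)) * E x := by
    intro x
    rw [hE x, ← Real.exp_add, ← sub_eq_add_neg]
  have se : ∀ x, Real.exp (s x) = Real.exp (e ^ 2 * A x / 2) * E x := by
    intro x
    rw [hE x, ← Real.exp_add, ← sub_eq_add_neg]
  have heF : ∀ x, |e * F x| ≤ 1 := by
    intro x
    rw [abs_mul, abs_of_pos he]
    calc e * |F x| ≤ e * C := mul_le_mul_of_nonneg_left (hF1 x) he.le
      _ ≤ 1 := by linarith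
  have heF' : ∀ x, |-(e * F x)| ≤ 1 := by
    intro x; rw [abs_neg]; exact heF x
  have hs0 : ∀ x, 0 ≤ e ^ 2 * A x / 2 := by
    intro x
    have := hA0 x
    positivity
  have hs1 : ∀ x, e ^ 2 * A x / 2 ≤ e ^ 2 * N := by
    intro x
    have h1 : e ^ 2 * A x ≤ e ^ 2 * M := mul_le_mul_of_nonneg_left (hA1 x) (sq_nonneg e)
    rw [hN]
    linarith
  have heN2 : e ^ 2 * N ≤ 1 := by
    have : e ^ 2 * N = e * (e * N) := by ring
    rw [this]
    have h1 : 0 ≤ e * N := by positivity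
    nlinarith
  have ip : Integrable fun x => Real.exp (p x) := by
    have : (fun x => Real.exp (p x)) = fun x => Real.exp (e * F x) * E x := funext pe
    rw [this]
    refine iB (Real.continuous_exp.comp (hFc.const_mul e)) (M := Real.exp 1) fun x => ?_
    rw [abs_of_pos (Real.exp_pos _)]
    exact Real.exp_le_exp.2 (abs_le.1 (heF x)).2
  have iq : Integrable fun x => Real.exp (q x) := by
    have : (fun x => Real.exp (q x)) = fun x => Real.exp (-(e * F x)) * E x := funext qe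
    rw [this]
    refine iB (Real.continuous_exp.comp (hFc.const_mul e).neg) (M := Real.exp 1) fun x => ?_
    rw [abs_of_pos (Real.exp_pos _)]
    exact Real.exp_le_exp.2 (abs_le.1 (heF' x)).2
  have is : Integrable fun x => Real.exp (s x) := by
    have : (fun x => Real.exp (s x))
      = fun x => Real.exp (e ^ 2 * A x / 2) * E x := funext se
    rw [this]
    refine iB (Real.continuous_exp.comp
      ((hAc.const_mul (e ^ 2)).div_const 2)) (M := Real.exp 1) fun x => ?_
    rw [abs_of_pos (Real.exp_pos _)]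
    exact Real.exp_le_exp.2 ((hs1 x).trans heN2)
  have hPL := bl_pl pc qc sc ip iq is (fun x y => H e he he3 x y)
  refine bl_alg I0n I2n IAn hC he he1 heC I1b hK2n ?_ ?_ ?_
    (integral_nonneg fun x => (Real.exp_pos _).le) hPL
  · -- lower bound of the first integral
    have h1 : ∀ x, E x + e * (F x * E x) + e ^ 2 / 2 * (F x ^ 2 * E x) - C ^ 3 * e ^ 3 * E x
        ≤ Real.exp (p x) := by
      intro x
      rw [pe x]
      have h2 := bl_exp_lower (heF x)
      have h3 : |e * F x| ^ 3 ≤ C ^ 3 * e ^ 3 := by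
        rw [abs_mul, abs_of_pos he, mul_pow, mul_comm]
        have := pow_le_pow_left₀ (abs_nonneg _) (hF1 x) 3
        gcongr
      have h4 : (1 + e * F x + (e * F x) ^ 2 / 2 - C ^ 3 * e ^ 3) * E x
          ≤ Real.exp (e * F x) * E x :=
        mul_le_mul_of_nonneg_right (by linarith) (hE0 x).le
      refine le_trans (le_of_eq ?_) h4
      ring
    have h2 : ∫ x, (E x + e * (F x * E x) + e ^ 2 / 2 * (F x ^ 2 * E x) - C ^ 3 * e ^ 3 * E x)
        = I0 + e * I1 + e ^ 2 / 2 * I2 - C ^ 3 * e ^ 3 * I0 := by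
      rw [integral_sub, integral_add, integral_add, integral_const_mul, integral_const_mul,
        integral_const_mul]
      · exact iE
      · exact iF.const_mul e
      · exact iE.add (iF.const_mul e)
      · exact iF2.const_mul _
      · exact (iE.add (iF.const_mul e)).add (iF2.const_mul _)
      · exact iE.const_mul _
    have h3 := integral_mono (((iE.add (iF.const_mul e)).add (iF2.const_mul (e ^ 2 / 2))).sub
      (iE.const_mul (C ^ 3 * e ^ 3))) ip h1
    have h4 : I0 + e * I1 + e ^ 2 / 2 * I2 - C ^ 3 * e ^ 3 * I0 ≤ ∫ x, Real.exp (p x) := by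
      rw [← h2]; exact h3
    refine le_trans (le_of_eq ?_) h4
    ring
  · have h1 : ∀ x, E x - e * (F x * E x) + e ^ 2 / 2 * (F x ^ 2 * E x) - C ^ 3 * e ^ 3 * E x
        ≤ Real.exp (q x) := by
      intro x
      rw [qe x]
      have h2 := bl_exp_lower (heF' x)
      have h3 : |-(e * F x)| ^ 3 ≤ C ^ 3 * e ^ 3 := by
        rw [abs_neg, abs_mul, abs_of_pos he, mul_pow, mul_comm]
        have := pow_le_pow_left₀ (abs_nonneg _) (hF1 x) 3
        gcongr
      have h4 : (1 + -(e * F x) + (-(e * F x)) ^ 2 / 2 - C ^ 3 * e ^ 3) * E x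
          ≤ Real.exp (-(e * F x)) * E x :=
        mul_le_mul_of_nonneg_right (by linarith) (hE0 x).le
      refine le_trans (le_of_eq ?_) h4
      ring
    have h2 : ∫ x, (E x - e * (F x * E x) + e ^ 2 / 2 * (F x ^ 2 * E x) - C ^ 3 * e ^ 3 * E x)
        = I0 - e * I1 + e ^ 2 / 2 * I2 - C ^ 3 * e ^ 3 * I0 := by
      rw [integral_sub, integral_add, integral_sub, integral_const_mul, integral_const_mul,
        integral_const_mul]
      · exact iE
      · exact iF.const_mul e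
      · exact iE.sub (iF.const_mul e)
      · exact iF2.const_mul _
      · exact (iE.sub (iF.const_mul e)).add (iF2.const_mul _)
      · exact iE.const_mul _
    have h3 := integral_mono (((iE.sub (iF.const_mul e)).add (iF2.const_mul (e ^ 2 / 2))).sub
      (iE.const_mul (C ^ 3 * e ^ 3))) iq h1
    have h4 : I0 - e * I1 + e ^ 2 / 2 * I2 - C ^ 3 * e ^ 3 * I0 ≤ ∫ x, Real.exp (q x) := by
      rw [← h2]; exact h3
    refine le_trans (le_of_eq ?_) h4
    ring
  · -- upper bound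
    have h1 : ∀ x, Real.exp (s x) ≤ E x + e ^ 2 / 2 * (A x * E x) + e ^ 3 * K2 * E x := by
      intro x
      rw [se x]
      have h2 := bl_exp_upper (hs0 x) ((hs1 x).trans heN2)
      have h3 : (e ^ 2 * A x / 2) ^ 2 ≤ e ^ 3 * N ^ 2 := by
        calc (e ^ 2 * A x / 2) ^ 2 ≤ (e ^ 2 * N) ^ 2 :=
              pow_le_pow_left₀ (hs0 x) (hs1 x) 2
          _ = e ^ 4 * N ^ 2 := by ring
          _ ≤ e ^ 3 * N ^ 2 := by
              have h52 : e ^ 4 ≤ e ^ 3 := by
                have : e ^ 4 = e ^ 3 * e := by ring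
                rw [this]
                exact mul_le_of_le_one_right (by positivity) he1
              exact mul_le_mul_of_nonneg_right h52 (sq_nonneg N)
      have h4 : Real.exp (e ^ 2 * A x / 2) * E x
          ≤ (1 + e ^ 2 * A x / 2 + e ^ 3 * K2) * E x := by
        refine mul_le_mul_of_nonneg_right ?_ (hE0 x).le
        rw [hK2]
        linarith
      refine h4.trans (le_of_eq ?_)
      ring
    have h2 : ∫ x, (E x + e ^ 2 / 2 * (A x * E x) + e ^ 3 * K2 * E x)
        = I0 + e ^ 2 / 2 * IA + e ^ 3 * K2 * I0 := by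
      rw [integral_add, integral_add, integral_const_mul, integral_const_mul]
      · exact iE
      · exact iA.const_mul _
      · exact iE.add (iA.const_mul _)
      · exact iE.const_mul _
    have h3 := integral_mono is ((iE.add (iA.const_mul (e ^ 2 / 2))).add
      (iE.const_mul (e ^ 3 * K2))) h1
    have h4 : ∫ x, Real.exp (s x) ≤ I0 + e ^ 2 / 2 * IA + e ^ 3 * K2 * I0 := by
      rw [← h2]; exact h3
    refine le_trans h4 (le_of_eq ?_)
    ring

/-! ### The pointwise inequality -/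

theorem bla_one {c L C D α e w k S η : ℝ} (hc : 0 < c) (hL : 0 ≤ L) (hC : 0 ≤ C) (hα : 0 < α)
    (hD : c ≤ D) (he : 0 < e) (hη : 0 < η) (hη1 : η ≤ 1)
    (heα : L * (2 * (C + 1) / c) ^ (2 + α) * e ^ α ≤ 2 * η) (hw : |w| ≤ C)
    (h1 : c * k ^ 2 ≤ S) (h2 : D * k ^ 2 - L * |k| ^ (2 + α) ≤ S) :
    e * (w * k + η * |k|) - S / 2
      ≤ e ^ 2 * (w ^ 2 / D) / 2 + (2 * (C + 1) / c + 1) * η * e ^ 2 := by
  have hD0 : 0 < D := lt_of_lt_of_le hc hD
  set K1 : ℝ := 2 * (C + 1) / c with hK1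
  have hK0 : 0 < K1 := by positivity
  have hk0 : 0 ≤ |k| := abs_nonneg k
  have hkk : k ^ 2 = |k| ^ 2 := (sq_abs k).symm
  by_cases hk : |k| ≤ K1 * e
  · have h3 := bl_amgm (e := e) (w := w) (k := k) hD0
    have h4 : e * (η * |k|) ≤ K1 * η * e ^ 2 := by
      calc e * (η * |k|) ≤ e * (η * (K1 * e)) := by gcongr
        _ = K1 * η * e ^ 2 := by ring
    have h5 : L * |k| ^ (2 + α) ≤ 2 * η * e ^ 2 := by
      have h51 : |k| ^ (2 + α) ≤ (K1 * e) ^ (2 + α) :=
        Real.rpow_le_rpow hk0 hk (by linarith)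
      have h52 : (K1 * e) ^ (2 + α) = K1 ^ (2 + α) * e ^ α * e ^ 2 := by
        rw [Real.mul_rpow hK0.le he.le, Real.rpow_add he, Real.rpow_two]
        ring
      calc L * |k| ^ (2 + α) ≤ L * (K1 ^ (2 + α) * e ^ α * e ^ 2) := by
            rw [← h52]
            exact mul_le_mul_of_nonneg_left h51 hL
        _ = L * K1 ^ (2 + α) * e ^ α * e ^ 2 := by ring
        _ ≤ 2 * η * e ^ 2 := mul_le_mul_of_nonneg_right heα (sq_nonneg e)
    nlinarith [h2, h3, h4, h5]
  · push Not at hk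
    have h3 : e * (w * k) ≤ e * (C * |k|) := by
      refine mul_le_mul_of_nonneg_left ?_ he.le
      refine (le_abs_self _).trans ?_
      rw [abs_mul]
      exact mul_le_mul_of_nonneg_right hw hk0
    have h4 : e * (η * |k|) ≤ e * (1 * |k|) := by gcongr
    have h5 : e * ((C + 1) * |k|) ≤ c * k ^ 2 / 2 := by
      have h51 : K1 * e * c ≤ |k| * c := mul_le_mul_of_nonneg_right hk.le hc.le
      have h52 : K1 * e * c = 2 * (C + 1) * e := by
        rw [hK1]; field_simp
      rw [hkk]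
      nlinarith [mul_le_mul_of_nonneg_right h51 hk0]
    have h7 : 0 ≤ e ^ 2 * (w ^ 2 / D) / 2 := by positivity
    have h8 : 0 ≤ (K1 + 1) * η * e ^ 2 := by positivity
    nlinarith [h1, h3, h4, h5, h7, h8]

section Main

variable {n m : ℕ} (V : Matrix (Fin n) (Fin m) ℝ) (f : (Fin m → ℝ) → ℝ)
    (w : Fin n → (Fin m → ℝ) → ℝ)

theorem bla_tay
    (hd : ∀ x h, HasDerivAt (fun r : ℝ => f (x + r • h)) (∑ i, w i x * V.mulVec h i) 0)
    (z k : Fin m → ℝ) (η : ℝ) (h : ∀ r : ℝ, |r| ≤ 1 → ∀ i, |w i (z + r • k) - w i z| ≤ η) :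
    |f (z + k) - f (z - k) - 2 * ∑ i, w i z * V.mulVec k i|
      ≤ 2 * (η * ∑ i, |V.mulVec k i|) := by
  have hd' : ∀ r0 : ℝ, HasDerivAt (fun r : ℝ => f (z + r • k))
      (∑ i, w i (z + r0 • k) * V.mulVec k i) r0 := by
    intro r0
    have h1 := hd (z + r0 • k) k
    have h2 : HasDerivAt (fun r : ℝ => r - r0) 1 r0 := (hasDerivAt_id r0).sub_const r0
    have h3 : HasDerivAt (fun r : ℝ => f (z + r0 • k + r • k))
        (∑ i, w i (z + r0 • k) * V.mulVec k i) ((fun r : ℝ => r - r0) r0) := by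
      simpa using h1
    have h4 := HasDerivAt.comp (h := fun r : ℝ => r - r0)
      (h₂ := fun r : ℝ => f (z + r0 • k + r • k)) r0 h3 h2
    rw [mul_one] at h4
    refine h4.congr_of_eventuallyEq (Filter.Eventually.of_forall fun r => ?_)
    show f (z + r • k) = f (z + r0 • k + (r - r0) • k)
    congr 1
    rw [sub_smul]
    abel
  have h1 : ∀ r ∈ Set.Icc (-1 : ℝ) 1, HasDerivWithinAt
      (fun r : ℝ => f (z + r • k) - r * ∑ i, w i z * V.mulVec k i)
      ((∑ i, w i (z + r • k) * V.mulVec k i) - 1 * ∑ i, w i z * V.mulVec k i)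
      (Set.Icc (-1 : ℝ) 1) r := by
    intro r _
    exact ((hd' r).sub ((hasDerivAt_id r).mul_const _)).hasDerivWithinAt
  have h2 : ∀ r ∈ Set.Icc (-1 : ℝ) 1,
      ‖(∑ i, w i (z + r • k) * V.mulVec k i) - 1 * ∑ i, w i z * V.mulVec k i‖
        ≤ η * ∑ i, |V.mulVec k i| := by
    intro r hr
    rw [Real.norm_eq_abs, one_mul, ← Finset.sum_sub_distrib, Finset.mul_sum]
    refine (Finset.abs_sum_le_sum_abs _ _).trans (Finset.sum_le_sum fun i _ => ?_)
    rw [← sub_mul, abs_mul]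
    exact mul_le_mul_of_nonneg_right (h r (abs_le.2 hr) i) (abs_nonneg _)
  have h3 := (convex_Icc (-1 : ℝ) 1).norm_image_sub_le_of_norm_hasDerivWithin_le h1 h2
    (show (-1 : ℝ) ∈ Set.Icc (-1 : ℝ) 1 by norm_num) (show (1 : ℝ) ∈ Set.Icc (-1 : ℝ) 1 by norm_num)
  rw [Real.norm_eq_abs, Real.norm_eq_abs, show |(1 : ℝ) - -1| = 2 by norm_num] at h3
  have e1 : f (z + (1 : ℝ) • k) - 1 * ∑ i, w i z * V.mulVec k i
      - (f (z + (-1 : ℝ) • k) - -1 * ∑ i, w i z * V.mulVec k i)
      = f (z + k) - f (z - k) - 2 * ∑ i, w i z * V.mulVec k i := by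
    rw [one_smul, neg_one_smul, ← sub_eq_add_neg]
    ring
  rw [e1] at h3
  linarith

theorem bla_point (g D : Fin n → ℝ → ℝ) (c L α C : ℝ) (hV : Function.Injective V.mulVec)
    (hc : 0 < c) (hL : 0 ≤ L) (hα : 0 < α) (hC : 0 ≤ C) (hD : ∀ i t, c ≤ D i t)
    (h1 : ∀ i t k, c * k ^ 2 ≤ g i (t + k) + g i (t - k) - 2 * g i t)
    (h2 : ∀ i t k, D i t * k ^ 2 - L * |k| ^ (2 + α) ≤ g i (t + k) + g i (t - k) - 2 * g i t)
    (hf : ∀ x, |f x| ≤ C) (hw : ∀ i x, |w i x| ≤ C)
    (hwu : UniformContinuous (fun x i => w i x))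
    (hd : ∀ x h, HasDerivAt (fun r : ℝ => f (x + r • h)) (∑ i, w i x * V.mulVec h i) 0)
    (θ : ℝ) (hθ : 0 < θ) : ∃ e1 : ℝ, 0 < e1 ∧ ∀ e, 0 < e → e ≤ e1 → ∀ x y,
      (e * f x - ∑ i, g i (V.mulVec x i)) * (1 / 2)
        + (-(e * f y) - ∑ i, g i (V.mulVec y i)) * (1 / 2)
      ≤ e ^ 2 * ((∑ i, w i ((1 / 2 : ℝ) • x + (1 / 2 : ℝ) • y) ^ 2
          / D i (V.mulVec ((1 / 2 : ℝ) • x + (1 / 2 : ℝ) • y) i)) + θ) / 2
        - ∑ i, g i (V.mulVec ((1 / 2 : ℝ) • x + (1 / 2 : ℝ) • y) i) := by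
  obtain ⟨K, hK0, hK⟩ := LinearMap.exists_antilipschitzWith (Matrix.mulVecLin V)
    (LinearMap.ker_eq_bot.2 hV)
  have hK0' : (0 : ℝ) < K := hK0
  set K1 : ℝ := 2 * (C + 1) / c with hK1
  have hK1p : 0 < K1 := by positivity
  set η : ℝ := min 1 (θ / (2 * (n * (K1 + 1) + 1))) with hη
  have hn0 : (0 : ℝ) ≤ n := Nat.cast_nonneg n
  have hη0 : 0 < η := lt_min one_pos (by positivity)
  have hη1 : η ≤ 1 := min_le_left _ _
  have hη2 : 2 * (n * ((K1 + 1) * η)) ≤ θ := by
    have h3 : η ≤ θ / (2 * (n * (K1 + 1) + 1)) := min_le_right _ _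
    have h4 : 0 < 2 * (n * (K1 + 1) + 1) := by positivity
    rw [le_div_iff₀ h4] at h3
    nlinarith
  obtain ⟨ρ, hρ0, hρ⟩ := Metric.uniformContinuous_iff.1 hwu η hη0
  set a1 : ℝ := (2 * η / (L * K1 ^ (2 + α) + 1)) ^ (1 / α) with ha1
  have hLK : 0 ≤ L * K1 ^ (2 + α) := mul_nonneg hL (Real.rpow_nonneg hK1p.le _)
  have ha1p : 0 < a1 := Real.rpow_pos_of_pos (by positivity) _
  set a2 : ℝ := (c / 2) * (ρ / K) ^ 2 / (C + 1) with ha2
  have ha2p : 0 < a2 := by positivity
  refine ⟨min a1 a2, lt_min ha1p ha2p, ?_⟩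
  intro e he hee x y
  have hea1 : e ≤ a1 := hee.trans (min_le_left _ _)
  have hea2 : e ≤ a2 := hee.trans (min_le_right _ _)
  set z : Fin m → ℝ := (1 / 2 : ℝ) • x + (1 / 2 : ℝ) • y with hz
  set k : Fin m → ℝ := (1 / 2 : ℝ) • x - (1 / 2 : ℝ) • y with hk
  have hx : x = z + k := by
    rw [hz, hk]
    funext j
    simp only [Pi.add_apply, Pi.sub_apply, Pi.smul_apply, smul_eq_mul]
    ring
  have hy : y = z - k := by
    rw [hz, hk]
    funext j
    simp only [Pi.add_apply, Pi.sub_apply, Pi.smul_apply, smul_eq_mul]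
    ring
  have hVx : ∀ i, V.mulVec x i = V.mulVec z i + V.mulVec k i := by
    intro i
    rw [hx, Matrix.mulVec_add, Pi.add_apply]
  have hVy : ∀ i, V.mulVec y i = V.mulVec z i - V.mulVec k i := by
    intro i
    rw [hy, Matrix.mulVec_sub, Pi.sub_apply]
  have e1 : ∑ i, g i (V.mulVec x i) = ∑ i, g i (V.mulVec z i + V.mulVec k i) :=
    Finset.sum_congr rfl fun i _ => by rw [hVx]
  have e2 : ∑ i, g i (V.mulVec y i) = ∑ i, g i (V.mulVec z i - V.mulVec k i) :=
    Finset.sum_congr rfl fun i _ => by rw [hVy]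
  have e3 : ∑ i, (g i (V.mulVec z i + V.mulVec k i) + g i (V.mulVec z i - V.mulVec k i)
      - 2 * g i (V.mulVec z i)) = ∑ i, g i (V.mulVec z i + V.mulVec k i)
        + ∑ i, g i (V.mulVec z i - V.mulVec k i) - 2 * ∑ i, g i (V.mulVec z i) := by
    rw [Finset.sum_sub_distrib, Finset.sum_add_distrib, ← Finset.mul_sum]
  have hA0 : 0 ≤ ∑ i, w i z ^ 2 / D i (V.mulVec z i) :=
    Finset.sum_nonneg fun i _ => div_nonneg (sq_nonneg _) (hc.le.trans (hD i _))
  rw [e1, e2]
  by_cases hkρ : ‖k‖ < ρ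
  · have h3 := bla_tay V f w hd z k η (fun r hr i => by
      have h31 : dist (z + r • k) z < ρ := by
        rw [dist_eq_norm, add_sub_cancel_left, norm_smul, Real.norm_eq_abs]
        calc |r| * ‖k‖ ≤ 1 * ‖k‖ := mul_le_mul_of_nonneg_right hr (norm_nonneg _)
          _ < ρ := by rw [one_mul]; exact hkρ
      have h32 := (dist_le_pi_dist (fun i => w i (z + r • k)) (fun i => w i z) i).trans (hρ h31).le
      rw [Real.dist_eq] at h32
      exact h32)
    have h4 := (abs_le.1 h3).2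
    rw [← hx, ← hy] at h4
    have heα : L * K1 ^ (2 + α) * e ^ α ≤ 2 * η := by
      have h41 : e ^ α ≤ 2 * η / (L * K1 ^ (2 + α) + 1) := by
        calc e ^ α ≤ a1 ^ α := Real.rpow_le_rpow he.le hea1 hα.le
          _ = 2 * η / (L * K1 ^ (2 + α) + 1) := by
            rw [ha1, ← Real.rpow_mul (by positivity), one_div_mul_cancel hα.ne', Real.rpow_one]
      have h42 : 0 < L * K1 ^ (2 + α) + 1 := by linarith
      rw [le_div_iff₀ h42] at h41
      have h43 : 0 ≤ e ^ α := Real.rpow_nonneg he.le _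
      nlinarith
    have h5 : ∀ i ∈ (univ : Finset (Fin n)), e * (w i z * V.mulVec k i + η * |V.mulVec k i|)
        - (g i (V.mulVec z i + V.mulVec k i) + g i (V.mulVec z i - V.mulVec k i)
          - 2 * g i (V.mulVec z i)) / 2
        ≤ e ^ 2 * (w i z ^ 2 / D i (V.mulVec z i)) / 2 + (K1 + 1) * η * e ^ 2 := fun i _ =>
      bla_one hc hL hC hα (hD i _) he hη0 hη1 heα (hw i z) (h1 i _ _) (h2 i _ _)
    have h6 := Finset.sum_le_sum h5
    have e5 : ∑ i, (e * (w i z * V.mulVec k i + η * |V.mulVec k i|)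
        - (g i (V.mulVec z i + V.mulVec k i) + g i (V.mulVec z i - V.mulVec k i)
          - 2 * g i (V.mulVec z i)) / 2)
        = e * (∑ i, w i z * V.mulVec k i + η * ∑ i, |V.mulVec k i|)
          - (∑ i, (g i (V.mulVec z i + V.mulVec k i) + g i (V.mulVec z i - V.mulVec k i)
          - 2 * g i (V.mulVec z i))) / 2 := by
      rw [Finset.sum_sub_distrib, ← Finset.mul_sum, Finset.sum_add_distrib, Finset.mul_sum _ _ η,
        Finset.sum_div]
    have e6 : ∑ i, (e ^ 2 * (w i z ^ 2 / D i (V.mulVec z i)) / 2 + (K1 + 1) * η * e ^ 2)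
        = e ^ 2 * (∑ i, w i z ^ 2 / D i (V.mulVec z i)) / 2 + n * ((K1 + 1) * η * e ^ 2) := by
      rw [Finset.sum_add_distrib, Finset.sum_const, Finset.card_univ, Fintype.card_fin,
        nsmul_eq_mul, Finset.mul_sum, Finset.sum_div]
    rw [e5, e6, e3] at h6
    have h7 : e * (f x - f y) ≤ e * (2 * (∑ i, w i z * V.mulVec k i
        + η * ∑ i, |V.mulVec k i|)) := by
      refine mul_le_mul_of_nonneg_left ?_ he.le
      linarith
    have h8 : e ^ 2 * (2 * (n * ((K1 + 1) * η))) ≤ e ^ 2 * θ :=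
      mul_le_mul_of_nonneg_left hη2 (sq_nonneg e)
    nlinarith [h6, h7, h8]
  · push Not at hkρ
    have h3 : (ρ / K) ^ 2 ≤ ∑ i, V.mulVec k i ^ 2 := by
      have h31 : ‖k‖ ≤ K * ‖V.mulVec k‖ := by
        have := hK.le_mul_dist k 0
        rw [dist_zero_right, map_zero, dist_zero_right] at this
        exact this
      have h32 : ρ / K ≤ ‖V.mulVec k‖ := by
        rw [div_le_iff₀ hK0', mul_comm]
        exact hkρ.trans h31
      have h33 : ‖V.mulVec k‖ ≤ Real.sqrt (∑ i, V.mulVec k i ^ 2) := by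
        rw [pi_norm_le_iff_of_nonneg (Real.sqrt_nonneg _)]
        intro i
        rw [Real.norm_eq_abs, ← Real.sqrt_sq_eq_abs]
        exact Real.sqrt_le_sqrt (Finset.single_le_sum (f := fun i => V.mulVec k i ^ 2)
          (fun j _ => sq_nonneg _) (Finset.mem_univ i))
      have h34 := pow_le_pow_left₀ (by positivity) (h32.trans h33) 2
      rwa [Real.sq_sqrt (Finset.sum_nonneg fun i _ => sq_nonneg _)] at h34
    have h4 : c * ∑ i, V.mulVec k i ^ 2 ≤ ∑ i, (g i (V.mulVec z i + V.mulVec k i)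
        + g i (V.mulVec z i - V.mulVec k i) - 2 * g i (V.mulVec z i)) := by
      rw [Finset.mul_sum]
      exact Finset.sum_le_sum fun i _ => h1 i _ _
    rw [e3] at h4
    have h5 : e * (f x - f y) ≤ e * (2 * C) := by
      refine mul_le_mul_of_nonneg_left ?_ he.le
      have := (abs_le.1 (hf x)).2
      have := (abs_le.1 (hf y)).1
      linarith
    have h6 : e * (C + 1) ≤ (c / 2) * (ρ / K) ^ 2 := by
      rw [ha2, le_div_iff₀ (by positivity)] at hea2
      exact hea2
    have h7 : c * (ρ / K) ^ 2 ≤ c * ∑ i, V.mulVec k i ^ 2 := mul_le_mul_of_nonneg_left h3 hc.le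
    have h8 : 0 ≤ e ^ 2 * ((∑ i, w i z ^ 2 / D i (V.mulVec z i)) + θ) / 2 := by positivity
    nlinarith [h4, h5, h6, h7, h8]

end Main

theorem st_BLA : ST_BLA := by
  intro n m V g D c L α f w hV hc hL hα hgc hDc hD hgl h1 h2 hfc hfs hwc hws hd
  -- bounds
  obtain ⟨C0, hC0⟩ := hfs.exists_bound_of_continuous hfc
  choose C1 hC1 using fun i => (hws i).exists_bound_of_continuous (hwc i)
  set C : ℝ := |C0| + ∑ i, |C1 i| with hC
  have hCn : 0 ≤ C := by positivity
  have hf1 : ∀ x, |f x| ≤ C := by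
    intro x
    have h3 := hC0 x
    rw [Real.norm_eq_abs] at h3
    have h4 : 0 ≤ ∑ i, |C1 i| := Finset.sum_nonneg fun i _ => abs_nonneg _
    have := le_abs_self C0
    rw [hC]
    linarith
  have hw1 : ∀ i x, |w i x| ≤ C := by
    intro i x
    have h3 := hC1 i x
    rw [Real.norm_eq_abs] at h3
    have h4 : |C1 i| ≤ ∑ i, |C1 i| :=
      Finset.single_le_sum (f := fun i => |C1 i|) (fun j _ => abs_nonneg _) (Finset.mem_univ i)
    have := le_abs_self (C1 i)
    have := abs_nonneg C0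
    rw [hC]
    linarith
  have hwu : UniformContinuous (fun x i => w i x) :=
    uniformContinuous_pi.2 fun i => (hws i).uniformContinuous_of_continuous (hwc i)
  have hVc : ∀ i, Continuous (fun x : Fin m → ℝ => V.mulVec x i) := bl_cont_mulVec V
  set G : (Fin m → ℝ) → ℝ := fun x => ∑ i, g i (V.mulVec x i) with hG
  set E : (Fin m → ℝ) → ℝ := fun x => Real.exp (-∑ i, g i (V.mulVec x i)) with hE
  set A : (Fin m → ℝ) → ℝ := fun x => ∑ i, w i x ^ 2 / D i (V.mulVec x i) with hA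
  have hGc : Continuous G := continuous_finsetSum _ fun i _ => (hgc i).comp (hVc i)
  have hEc : Continuous E := Real.continuous_exp.comp hGc.neg
  have iE : Integrable E := by
    have h3 := (link_gauss V hV (fun _ => c / 4) (fun _ => by positivity)).1
    refine h3.mono' hEc.aestronglyMeasurable (Filter.Eventually.of_forall fun x => ?_)
    rw [Real.norm_eq_abs, abs_of_pos (Real.exp_pos _)]
    exact Real.exp_le_exp.2 (neg_le_neg (Finset.sum_le_sum fun i _ => hgl i _))
  have hAc : Continuous A := by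
    refine continuous_finsetSum _ fun i _ => ?_
    exact ((hwc i).pow 2).div ((hDc i).comp (hVc i)) fun x => (lt_of_lt_of_le hc (hD i _)).ne'
  have hA0 : ∀ x, 0 ≤ A x := fun x =>
    Finset.sum_nonneg fun i _ => div_nonneg (sq_nonneg _) (hc.le.trans (hD i _))
  have hA1 : ∀ x, A x ≤ n * (C ^ 2 / c) := by
    intro x
    have h3 : ∀ i ∈ (univ : Finset (Fin n)), w i x ^ 2 / D i (V.mulVec x i) ≤ C ^ 2 / c := by
      intro i _
      refine div_le_div₀ (sq_nonneg C) ?_ hc (hD i _)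
      rw [← sq_abs]
      exact pow_le_pow_left₀ (abs_nonneg _) (hw1 i _) 2
    have h4 := Finset.sum_le_sum h3
    rwa [Finset.sum_const, Finset.card_univ, Fintype.card_fin, nsmul_eq_mul] at h4
  have iA : Integrable (fun x => A x * E x) := by
    refine iE.bdd_mul (c := n * (C ^ 2 / c)) hAc.aestronglyMeasurable
      (Filter.Eventually.of_forall fun x => ?_)
    rw [Real.norm_eq_abs, abs_of_nonneg (hA0 x)]
    exact hA1 x
  show (∫ x, E x) * (∫ x, f x ^ 2 * E x) - (∫ x, f x * E x) ^ 2 ≤ (∫ x, E x) * ∫ x, A x * E x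
  have key : ∀ θ : ℝ, 0 < θ → (∫ x, E x) * (∫ x, f x ^ 2 * E x) - (∫ x, f x * E x) ^ 2
      ≤ (∫ x, E x) * (∫ x, A x * E x) + θ * (∫ x, E x) ^ 2 := by
    intro θ hθ
    have h3 := bla_core E f (fun x => A x + θ) G hGc (fun x => rfl) iE hfc
      (hAc.add continuous_const) C (n * (C ^ 2 / c) + θ) hCn (by positivity) hf1
      (fun x => add_nonneg (hA0 x) hθ.le) (fun x => by have := hA1 x; linarith)
      (bla_point V f w g D c L α C hV hc hL hα hCn hD h1 h2 hf1 hw1 hwu hd θ hθ)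
    have h4 : ∫ x, (A x + θ) * E x = (∫ x, A x * E x) + θ * ∫ x, E x := by
      have : (fun x => (A x + θ) * E x) = fun x => A x * E x + θ * E x := by
        funext x; ring
      rw [this, integral_add iA (iE.const_mul θ), integral_const_mul]
    rw [h4] at h3
    refine h3.trans (le_of_eq ?_)
    ring
  refine le_of_forall_pos_le_add fun ε hε => ?_
  have h3 := key (ε / ((∫ x, E x) ^ 2 + 1)) (by positivity)
  have h4 : ε / ((∫ x, E x) ^ 2 + 1) * (∫ x, E x) ^ 2 ≤ ε := by
    rw [div_mul_eq_mul_div, div_le_iff₀ (by positivity)]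
    nlinarith [sq_nonneg (∫ x, E x)]
  linarith

end Pool.Agent.Helper44.GJ
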